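import Pool.Agent.D0H43.Q4.Stm4
import Pool.Agent.Y699.Ql
import Pool.Agent.Y699.Qj
import Pool.Agent.TH402.AK.Gauss

/-!
Project Q4, module D2.1: the quartic supplementary law `(1 + i / π)_4 = i ^ ((x - y - y² - 1) / 4)` for the
primary primes `π = x + i y`.
-/

set_option autoImplicit false
set_option linter.unusedSectionVars false
set_option linter.unusedSimpArgs false

open H385 (ZI RQ im1 nrm)

namespace Pool.Agent.D0H13.Q4

open Pool.Agent.Y699
open Pool.Agent.D0H43.Q4 (l1 xl S_SUPL)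
open Pool.Agent.W164.RC (Ip Ip_spec Ip_exists Ip_one Ip_three dg two2 prim_iff_dvd unit_norm unit_cases)
open Pool.Agent.H304R2.EC.A1 (prim prim_mul prim_cancel prim_one prim_norm_odd prim_star eq_one_of_prim
  norm_def' re_mul' im_mul' eq_of_dvd prim_ne_zero)

/-- all the Jacobi sums are known -/
theorem jj : JJ := JJ_of Pool.Agent.TH402.AK.e

/-- powers of `i` with integral exponents -/
def ip (k : ℤ) : ZI := im1 ^ (k % 4).toNat

lemma ip_of {a : ℤ} {r : ℕ} (h : a % 4 = r) : ip a = im1 ^ r := by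
  unfold ip
  rw [h, Int.toNat_natCast]

lemma ip_congr {a b : ℤ} (h : a % 4 = b % 4) : ip a = ip b := by
  unfold ip
  rw [h]

lemma mod4 (a : ℤ) : ∃ r : ℕ, r < 4 ∧ a % 4 = r := ⟨(a % 4).toNat, by omega, by omega⟩

lemma ip_nat (m : ℕ) : ip (m : ℤ) = im1 ^ m := by
  rw [ip_of (r := m % 4) (by omega)]
  conv_rhs => rw [← Nat.div_add_mod m 4, pow_add, pow_mul, im1_four, one_pow, one_mul]

lemma ip_add (a b : ℤ) : ip (a + b) = ip a * ip b := by
  obtain ⟨r, hr, ha⟩ := mod4 a
  obtain ⟨s, hs, hb⟩ := mod4 b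
  rw [ip_of ha, ip_of hb, ← pow_add, ← ip_nat]
  apply ip_congr
  push_cast
  omega

lemma ip_zero : ip 0 = 1 := rfl

lemma ip_star (a : ℤ) : star (ip a) = ip (-a) := by
  obtain ⟨r, hr, ha⟩ := mod4 a
  rw [ip_of ha]
  have h4 : r = 0 ∨ r = 1 ∨ r = 2 ∨ r = 3 := by omega
  rcases h4 with rfl | rfl | rfl | rfl
  · rw [ip_of (r := 0) (by omega)]; decide
  · rw [ip_of (r := 3) (by omega)]; decide
  · rw [ip_of (r := 2) (by omega)]; decide
  · rw [ip_of (r := 1) (by omega)]; decide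

lemma ip_mul_neg (a : ℤ) : ip a * ip (-a) = 1 := by
  rw [← ip_add, add_neg_cancel, ip_zero]

lemma ip_norm (a : ℤ) : (ip a).norm = 1 := by
  obtain ⟨r, hr, ha⟩ := mod4 a
  rw [ip_of ha]
  have h4 : r = 0 ∨ r = 1 ∨ r = 2 ∨ r = 3 := by omega
  rcases h4 with rfl | rfl | rfl | rfl <;> decide

lemma neg_im_pow (m : ℕ) : (-im1) ^ m = ip (-(m : ℤ)) := by
  induction m with
  | zero => rfl
  | succ n ih =>
    rw [pow_succ, ih]
    have h1 : (-im1 : ZI) = ip (-1) := by decide
    rw [h1, ← ip_add]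
    congr 1
    push_cast
    ring

lemma star_l1 : star l1 = -im1 * l1 := by decide

lemma l1_star : l1 * star l1 = 2 := by decide

lemma not_dvd_l1 {π : ZI} (h : PP π) : ¬ π ∣ l1 := fun hd =>
  not_dvd_two h (by rw [← l1_star]; exact hd.mul_right _)

/-- the inert primes -/
lemma q4_inert {q : ℕ} (hq : q.Prime) (h3 : q % 4 = 3) (h : PP (-(q : ZI))) :
    q4 (-(q : ZI)) l1 = ip ((-(q : ℤ) - 1) / 4) := by
  apply q4_eq h (Or.inr (ip_norm _))
  obtain ⟨k, hk, hk2⟩ := inert_quarter h3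
  rw [nrm_inert, hk2, pow_mul]
  have := Fact.mk hq
  -- the Frobenius
  have h1 : (q : ZI) ∣ l1 ^ (4 * k + 2) - (-im1) := by
    have h2 := inert_pow h3 l1
    have h4 : (q : ZI) ∣ 2 * (l1 ^ (4 * k + 2) - (-im1)) := by
      have e : 2 * (l1 ^ (4 * k + 2) - (-im1)) = star l1 * (l1 ^ q - star l1) := by
        rw [hk, pow_succ, star_l1, ← l1_star, star_l1]
        ring
      rw [e]
      exact h2.mul_left _
    have h5 : ∃ c : ℤ, 2 * c = q + 1 := ⟨(q + 1) / 2, by omega⟩
    obtain ⟨c, hc⟩ := h5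
    have h6 : (2 : ZI) * (c : ZI) = (q : ZI) + 1 := by
      have := congrArg (Int.cast : ℤ → ZI) hc
      push_cast at this
      exact this
    have e : l1 ^ (4 * k + 2) - (-im1) = (c : ZI) * (2 * (l1 ^ (4 * k + 2) - (-im1))) -
        (q : ZI) * (l1 ^ (4 * k + 2) - (-im1)) := by
      linear_combination (-(l1 ^ (4 * k + 2) - (-im1))) * h6
    rw [e]
    exact dvd_sub (h4.mul_left _) (dvd_mul_right _ _)
  have h2 : (q : ZI) ∣ (l1 ^ (4 * k + 2)) ^ (k + 1) - (-im1) ^ (k + 1) :=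
    h1.trans (sub_dvd_pow_sub_pow _ _ _)
  have h3' : ip ((-(q : ℤ) - 1) / 4) = (-im1) ^ (k + 1) := by
    rw [neg_im_pow]
    congr 1
    push_cast
    omega
  rw [h3']
  exact (neg_dvd).2 h2

/-- the symbol of `1 + i` over an odd rational prime -/
lemma Rp_l1 {q : ℕ} (hq : q.Prime) (h2 : q ≠ 2) : Rp l1 q = ip ((s4 q * q - 1) / 4) := by
  have ho : q % 2 = 1 := by
    rcases hq.eq_two_or_odd with h | h
    · exact absurd h h2
    · exact h
  unfold Rp
  by_cases h1 : q % 4 = 1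
  · obtain ⟨x, hx, hxp, hxx, hn, hI⟩ := Ip_one hq h1
    rw [hI, Finset.prod_insert (by simpa using hx), Finset.prod_singleton]
    have hPx : PP x := PP_ip hq (by rw [hI]; simp)
    have e1 : q4 (star x) l1 = star (q4 x (star l1)) := by
      rw [← q4_star hPx, star_star]
    have e2 := unit_star_mul (q4_norm hPx (not_dvd_l1 hPx))
    have e0 : q4 x (-im1) = ip (-((q / 4 : ℕ) : ℤ)) := by
      rw [← neg_im_pow, ← hn]
      exact q4_unit hPx (by decide)
    rw [e1, star_l1, q4_mul hPx, e0, star_mul, ip_star, neg_neg]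
    unfold s4
    rw [if_pos (by omega)]
    have e3 : (1 * (q : ℤ) - 1) / 4 = ((q / 4 : ℕ) : ℤ) := by push_cast; omega
    rw [e3]
    linear_combination (ip ((q / 4 : ℕ) : ℤ)) * e2
  · have h3 : q % 4 = 3 := by omega
    rw [Ip_three h3, Finset.prod_singleton]
    have hP : PP (-(q : ZI)) := PP_ip hq (by rw [Ip_three h3]; simp)
    rw [q4_inert hq h3 hP]
    unfold s4
    rw [if_neg (by omega), neg_one_mul]

lemma s4_one {n : ℤ} (h : n % 2 = 1) : (s4 n * n) % 4 = 1 := by
  unfold s4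
  split_ifs with h1
  · omega
  · omega

/-- the symbol of `1 + i` over an odd number -/
lemma Rs_l1 {n : ℕ} (hn : n % 2 = 1) : Rs l1 n = ip ((s4 n * n - 1) / 4) := by
  unfold Rs
  have h : ∀ L : List ℕ, (∀ q ∈ L, q.Prime ∧ q ≠ 2) → L.prod % 2 = 1 ∧
      (L.map (Rp l1)).prod = ip ((s4 (L.prod : ℕ) * (L.prod : ℕ) - 1) / 4) := by
    intro L
    induction L with
    | nil => intro _; exact ⟨rfl, by simp [s4, ip]⟩
    | cons a L ih =>
      intro hL
      obtain ⟨i1, i2⟩ := ih (fun q hq => hL q (List.mem_cons_of_mem _ hq))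
      obtain ⟨a1, a2⟩ := hL a List.mem_cons_self
      have ho : a % 2 = 1 := by
        rcases a1.eq_two_or_odd with h | h
        · exact absurd h a2
        · exact h
      rw [List.map_cons, List.prod_cons, List.prod_cons, i2, Rp_l1 a1 a2]
      refine ⟨by rw [Nat.mul_mod, ho, i1], ?_⟩
      rw [← ip_add]
      apply ip_congr
      obtain ⟨P, hP⟩ : ∃ P : ℕ, P = L.prod := ⟨_, rfl⟩
      rw [← hP] at i1 ⊢
      have e1 : s4 ((a * P : ℕ) : ℤ) = s4 a * s4 P := by
        rw [Nat.cast_mul]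
        exact s4_mul (by omega) (by omega)
      have h1 : (s4 (a : ℤ) * a) % 4 = 1 := s4_one (by omega)
      have h2 : (s4 (P : ℤ) * P) % 4 = 1 := s4_one (by omega)
      rw [e1, Nat.cast_mul]
      obtain ⟨u, hu⟩ : ∃ u, s4 (a : ℤ) * a = 4 * u + 1 := ⟨(s4 (a : ℤ) * a) / 4, by omega⟩
      obtain ⟨w, hw⟩ : ∃ w, s4 (P : ℤ) * P = 4 * w + 1 := ⟨(s4 (P : ℤ) * P) / 4, by omega⟩
      have h3 : s4 (a : ℤ) * s4 (P : ℤ) * ((a : ℤ) * P) = 4 * (4 * (u * w) + u + w) + 1 := by
        have : s4 (a : ℤ) * s4 (P : ℤ) * ((a : ℤ) * P) = (s4 (a : ℤ) * a) * (s4 (P : ℤ) * P) := by ring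
        rw [this, hu, hw]
        ring
      rw [h3, hu, hw]
      omega
  have h2 := h n.primeFactorsList fun q hq => ⟨Nat.prime_of_mem_primeFactorsList hq, by
    rintro rfl
    have := Nat.dvd_of_mem_primeFactorsList hq
    omega⟩
  rw [h2.2, Nat.prod_primeFactorsList (by omega)]

/-- a rational prime dividing a prime with nonzero imaginary part -/
lemma not_rat_dvd {π : ZI} (h : PP π) (hb : π.im ≠ 0) {q : ℕ} (hq : q.Prime) (h2 : q ≠ 2)
    (h3 : (q : ZI) ∣ π) : False := by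
  obtain ⟨z, hz⟩ : (Ip q).Nonempty := by
    rcases hq.eq_two_or_odd with h | h
    · exact absurd h h2
    · rcases (by omega : q % 4 = 1 ∨ q % 4 = 3) with h5 | h5
      · obtain ⟨x, -, -, -, -, hI⟩ := Ip_one hq h5
        rw [hI]; exact ⟨x, by simp⟩
      · rw [Ip_three h5]; exact ⟨_, Finset.mem_singleton_self _⟩
  have h5 := (Ip_spec hq hz).2.2.2
  have h6 := (PP_ip hq hz).eq_of_dvd h (h5.trans h3)
  apply split_not_dvd_re h hb
  obtain ⟨c, hc⟩ := h3
  have h7 : π.re = q * c.re := by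
    rw [hc, re_mul']
    simp
  rw [h7]
  push_cast
  rw [h6] at h5
  exact h5.mul_right _

/-- the symbol over the real part -/
lemma Rs_re {π : ZI} (h : PP π) (hb : π.im ≠ 0) : Rs π π.re.natAbs = ((e8 π.re.natAbs : ℤ) : ZI) := by
  have a1 := h.re_odd
  have h1 : Rs π π.re.natAbs = Rs ((π.im : ZI) * im1) π.re.natAbs := by
    apply Rs_per
    have h2 : π - (π.im : ZI) * im1 = (π.re : ZI) := by
      ext
      · simp only [Zsqrtd.re_sub, re_mul', im_mul', Zsqrtd.re_intCast, Zsqrtd.im_intCast]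
        simp only [im1]; ring
      · simp only [Zsqrtd.im_sub, re_mul', im_mul', Zsqrtd.re_intCast, Zsqrtd.im_intCast]
        simp only [im1]; ring
    rw [h2]
    have : ((π.re.natAbs : ℤ) : ZI) ∣ (π.re : ZI) := Int.cast_dvd_cast _ _ (Int.natAbs_dvd.2 dvd_rfl)
    rwa [Int.cast_natCast] at this
  rw [h1, Rs_mul, Rs_im (by omega), Rs_rat, one_mul]
  intro q hq hqc hqd
  have h2 : (q : ℤ) ∣ π.re := Int.natCast_dvd.2 hqc
  have hq2 : q ≠ 2 := by rintro rfl; omega
  apply not_rat_dvd h hb hq hq2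
  obtain ⟨u, hu⟩ := h2
  obtain ⟨w, hw⟩ := hqd
  refine ⟨⟨u, w⟩, ?_⟩
  ext
  · rw [re_mul', hu]; simp
  · rw [im_mul', hw]; simp

/-- the symbol over the sum of the real and the imaginary part -/
lemma Rs_sum {π : ZI} (h : PP π) (hb : π.im ≠ 0) :
    Rs π (π.re + π.im).natAbs = ip (-((π.re + π.im - 1) / 4)) := by
  have a1 := h.re_odd
  have a2 := h.im_even
  have hab := h.prm.2
  set s := π.re + π.im with hs
  have h1 : Rs π s.natAbs = Rs ((π.re : ZI) * star l1) s.natAbs := by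
    apply Rs_per
    have h2 : π - (π.re : ZI) * star l1 = (s : ZI) * im1 := by
      ext
      · simp only [Zsqrtd.re_sub, re_mul', im_mul', Zsqrtd.re_intCast, Zsqrtd.im_intCast]
        simp only [im1, l1, Zsqrtd.re_star, Zsqrtd.im_star]; ring
      · simp only [Zsqrtd.im_sub, re_mul', im_mul', Zsqrtd.re_intCast, Zsqrtd.im_intCast]
        simp only [im1, l1, Zsqrtd.re_star, Zsqrtd.im_star]; rw [hs]; ring
    rw [h2]
    have : ((s.natAbs : ℤ) : ZI) ∣ (s : ZI) := Int.cast_dvd_cast _ _ (Int.natAbs_dvd.2 dvd_rfl)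
    rw [Int.cast_natCast] at this
    exact this.mul_right _
  rw [h1, Rs_mul, Rs_rat, one_mul, Rs_star, Rs_l1 (by omega), ip_star]
  · have e0 : s4 (s.natAbs : ℤ) * (s.natAbs : ℤ) = s := by
      unfold s4
      rcases Int.natAbs_eq s with h3 | h3
      · rw [← h3, if_pos (by omega)]; ring
      · have h4 : (s.natAbs : ℤ) = -s := by omega
        rw [h4, if_neg (by omega)]; ring
    rw [e0]
  · intro q hq hqc hqd
    have h2 : (q : ℤ) ∣ s := Int.natCast_dvd.2 hqc
    have hq2 : q ≠ 2 := by rintro rfl; omega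
    apply not_rat_dvd h hb hq hq2
    obtain ⟨u, hu⟩ := hqd
    obtain ⟨w, hw⟩ := h2
    refine ⟨⟨u, w - u⟩, ?_⟩
    ext
    · rw [re_mul', hu]; simp
    · have h5 : π.im = q * (w - u) := by rw [mul_sub, ← hw, ← hu, hs]; ring
      rw [im_mul', h5]; simp

/-- the split primes -/
lemma q4_split {π : ZI} (h : PP π) (hb : π.im ≠ 0) : q4 π l1 = im1 ^ xl π := by
  have a1 := h.re_odd
  have a2 := h.im_even
  have hab := h.prm.2
  have nre := split_not_dvd_re h hb
  have c1 : (π.re : ZI) * l1 - ((π.re + π.im : ℤ) : ZI) = π * im1 := by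
    ext
    · simp only [Zsqrtd.re_sub, re_mul', im_mul', Zsqrtd.re_intCast, Zsqrtd.im_intCast]
      simp only [im1, l1]; ring
    · simp only [Zsqrtd.im_sub, re_mul', im_mul', Zsqrtd.re_intCast, Zsqrtd.im_intCast]
      simp only [im1, l1]; ring
  have ns : ¬ π ∣ ((π.re + π.im : ℤ) : ZI) := by
    intro hd
    have h1 : π ∣ (π.re : ZI) * l1 := by
      have : (π.re : ZI) * l1 = ((π.re + π.im : ℤ) : ZI) + π * im1 := by rw [← c1]; ring
      rw [this]
      exact dvd_add hd (dvd_mul_right _ _)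
    rcases h.pr.dvd_or_dvd h1 with h2 | h2
    · exact nre h2
    · exact not_dvd_l1 h h2
  have p1 : q4 π (π.re : ZI) * q4 π l1 = q4 π ((π.re + π.im : ℤ) : ZI) := by
    rw [← q4_mul h]
    exact q4_per h ⟨_, c1⟩
  rw [q4_int jj h a1 nre, q4_int jj h (by omega) ns, Rs_re h hb, Rs_sum h hb, if_pos hab, one_mul,
    neg_one_w (norm_def' π) h] at p1
  -- the sign
  have key : ∃ X : ZI, X * X = 1 ∧ X * q4 π l1 = ip (-((π.re + π.im - 1) / 4)) ∧
      X * ip (-((π.re + π.im - 1) / 4)) = im1 ^ xl π := by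
    refine ⟨_, ?_, p1, ?_⟩
    · unfold wi e8
      split_ifs <;> decide
    · have e1 : im1 ^ xl π = ip ((π.re - π.im - π.im ^ 2 - 1) / 4) := rfl
      rw [e1]
      obtain ⟨t, ht⟩ : ∃ t : ℤ, t = -((π.re + π.im - 1) / 4) := ⟨_, rfl⟩
      obtain ⟨b, hbb⟩ : ∃ b, π.im = 2 * b := ⟨π.im / 2, by omega⟩
      obtain ⟨x, hx⟩ : ∃ x, π.re = x := ⟨_, rfl⟩
      have e2 : (π.im) ^ 2 = 4 * b ^ 2 := by rw [hbb]; ring
      rw [e2, ← ht, hx]
      rw [hx] at ht hab a1
      unfold wi e8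
      have plus : ∀ {u : ℤ}, u % 4 = t % 4 → (1 : ZI) * ip t = ip u := by
        intro u hu
        rw [one_mul]
        exact ip_congr hu.symm
      have minus : ∀ {u : ℤ}, u % 4 = (t + 2) % 4 → (-1 : ZI) * ip t = ip u := by
        intro u hu
        have : (-1 : ZI) = ip 2 := by decide
        rw [this, ← ip_add]
        apply ip_congr
        omega
      rcases Int.emod_two_eq_zero_or_one b with h6 | h6
      · obtain ⟨c, hc⟩ : ∃ c, b = 2 * c := ⟨b / 2, by omega⟩
        have h7 : b ^ 2 = 4 * c ^ 2 := by rw [hc]; ring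
        rw [if_pos (by omega), h7]
        rcases (by omega : x % 8 = 1 ∨ x % 8 = 5) with h8 | h8
        · rw [if_pos (by omega)]
          simp only [Int.cast_one, mul_one]
          apply plus
          omega
        · rw [if_neg (by omega)]
          simp only [Int.cast_one, one_mul, Int.cast_neg]
          apply minus
          omega
      · obtain ⟨c, hc⟩ : ∃ c, b = 2 * c + 1 := ⟨b / 2, by omega⟩
        have h7 : b ^ 2 = 4 * (c * (c + 1)) + 1 := by rw [hc]; ring
        obtain ⟨d, hd⟩ : ∃ d, c * (c + 1) = 2 * d := by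
          obtain ⟨d, hd⟩ := Int.even_mul_succ_self c
          exact ⟨d, by rw [hd]; ring⟩
        rw [if_neg (by omega), if_neg (by omega), h7, hd]
        rcases (by omega : x % 8 = 3 ∨ x % 8 = 7) with h8 | h8
        · rw [if_neg (by omega)]
          simp only [Int.cast_one, mul_neg, mul_one, Int.cast_neg, neg_neg]
          apply plus
          omega
        · rw [if_pos (by omega)]
          simp only [Int.cast_one, mul_one, Int.cast_neg]
          apply minus
          omega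
  obtain ⟨X, hX, h1, h2⟩ := key
  rw [← h2, ← h1, ← mul_assoc, hX, one_mul]

/-- **the supplementary law for `1 + i`** -/
theorem supl : S_SUPL := by
  intro π h
  by_cases hb : π.im = 0
  · rcases h.cases with ⟨p, hp, hp4, hpn⟩ | ⟨p, hp, hp4, hpn⟩
    · exfalso
      rw [norm_def', hb] at hpn
      have h1 : (p : ℤ) = π.re * π.re := by rw [← hpn]; ring
      have h2 : p = π.re.natAbs * π.re.natAbs := by
        have := congrArg Int.natAbs h1
        rwa [Int.natAbs_mul, Int.natAbs_natCast] at this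
      rcases Nat.prime_mul_iff.1 (h2 ▸ hp) with ⟨h3, h4⟩ | ⟨h3, h4⟩
      · rw [h4] at h3; exact Nat.not_prime_one h3
      · rw [h4] at h3; exact Nat.not_prime_one h3
    · subst hpn
      rw [q4_inert hp hp4 h]
      have e1 : im1 ^ xl (-(p : ZI)) = ip (((-(p : ZI)).re - (-(p : ZI)).im - (-(p : ZI)).im ^ 2 - 1) / 4) := rfl
      rw [e1]
      congr 2
      simp
  · exact q4_split h hb

end Pool.Agent.D0H13.Q4
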